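import Mathlib
import Pool.Agent.XSperner.Defs
import Pool.Agent.XSperner.Main

/-!
# Cross-Sperner families with the maximum number of intersections, odd ground sets

For every `d`, with `n = 2 d + 1`, the maximum number of distinct intersections `a ∩ b` over
cross-Sperner pairs of families of subsets of an `n`-element set is
`2 ^ n - 2 ^ (d + 1) - 2 ^ d + 1`.
-/

namespace Pool.Agent.Results.MP_841146_co.CrossSpernerOdd

open Finset Pool.Agent.XSperner
open scoped FinsetFamily

lemma intersections_eq {n : ℕ} (A B : Finset (Finset (Fin n))) : intersections A B = A ⊼ B := by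
  ext W
  simp only [intersections, mem_image, mem_product, Prod.exists, mem_infs]
  constructor
  · rintro ⟨a, b, ⟨ha, hb⟩, rfl⟩
    exact ⟨a, ha, b, hb, rfl⟩
  · rintro ⟨a, ha, b, hb, rfl⟩
    exact ⟨a, b, ⟨ha, hb⟩, rfl⟩

lemma upper (d : ℕ) (A B : Finset (Finset (Fin (2 * d + 1)))) (h : CrossSperner A B) :
    #(intersections A B) + 2 ^ (d + 1) + 2 ^ d ≤ 2 ^ (2 * d + 1) + 1 := by
  rw [intersections_eq, ← card_compls, compls_infs]
  refine union_bound (by simp) Aᶜˢ Bᶜˢ ?_
  intro a ha b hb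
  rw [mem_compls] at ha hb
  have := h _ ha _ hb
  rw [compl_subset_compl, compl_subset_compl] at this
  exact ⟨this.2, this.1⟩

lemma lower (d : ℕ) : ∃ A B : Finset (Finset (Fin (2 * d + 1))), CrossSperner A B ∧
    #(intersections A B) + 2 ^ (d + 1) + 2 ^ d = 2 ^ (2 * d + 1) + 1 := by
  obtain ⟨X, -, hX⟩ := exists_subset_card_eq
    (show d ≤ #(univ : Finset (Fin (2 * d + 1))) by simp; omega)
  have hXc : #Xᶜ = d + 1 := by rw [card_compl, hX, Fintype.card_fin]; omega
  refine ⟨X.ssubsets.image (fun a => a ∪ Xᶜ), (Xᶜ).ssubsets.image (fun b => X ∪ b), ?_, ?_⟩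
  · intro a ha b hb
    rw [mem_image] at ha hb
    obtain ⟨a', ha', rfl⟩ := ha
    obtain ⟨b', hb', rfl⟩ := hb
    rw [mem_ssubsets] at ha' hb'
    constructor
    · intro h
      apply hb'.2
      intro x hx
      have := h (mem_union_right _ hx)
      rw [mem_union] at this
      rcases this with h1 | h1
      · exact absurd h1 (mem_compl.mp hx)
      · exact h1
    · intro h
      apply ha'.2
      intro x hx
      have := h (mem_union_left _ hx)
      rw [mem_union] at this
      rcases this with h1 | h1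
      · exact h1
      · exact absurd hx (mem_compl.mp h1)
  · have key : intersections (X.ssubsets.image (fun a => a ∪ Xᶜ))
        ((Xᶜ).ssubsets.image (fun b => X ∪ b)) =
        (X.ssubsets ×ˢ (Xᶜ).ssubsets).image (fun p => p.1 ∪ p.2) := by
      have e : ∀ a b : Finset (Fin (2 * d + 1)), a ⊂ X → b ⊂ Xᶜ →
          (a ∪ Xᶜ) ∩ (X ∪ b) = a ∪ b := by
        intro a b ha hb
        ext x
        have h1 : x ∈ a → x ∈ X := fun h => ha.1 h
        have h2 : x ∈ b → x ∉ X := fun h => mem_compl.mp (hb.1 h)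
        simp only [mem_inter, mem_union, mem_compl]
        tauto
      ext W
      simp only [intersections, mem_image, mem_product, Prod.exists, mem_ssubsets]
      constructor
      · rintro ⟨a, b, ⟨⟨a', ha', rfl⟩, b', hb', rfl⟩, rfl⟩
        exact ⟨a', b', ⟨ha', hb'⟩, (e a' b' ha' hb').symm⟩
      · rintro ⟨a', b', ⟨ha', hb'⟩, rfl⟩
        exact ⟨a' ∪ Xᶜ, X ∪ b', ⟨⟨a', ha', rfl⟩, b', hb', rfl⟩, e a' b' ha' hb'⟩
    rw [key, card_image_of_injOn, card_product]
    · have c1 : #X.ssubsets + 1 = 2 ^ d := by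
        have h1 : #X.ssubsets + 1 = #X.powerset := card_erase_add_one (mem_powerset_self X)
        rw [card_powerset] at h1
        rw [h1, hX]
      have c2 : #(Xᶜ).ssubsets + 1 = 2 ^ (d + 1) := by
        have h1 : #(Xᶜ).ssubsets + 1 = #(Xᶜ).powerset := card_erase_add_one (mem_powerset_self _)
        rw [card_powerset] at h1
        rw [h1, hXc]
      have e3 : 2 ^ (2 * d + 1) = 2 ^ d * 2 ^ (d + 1) := by rw [← pow_add]; congr 1; omega
      rw [e3, ← c2, ← c1]
      ring
    · rintro ⟨a, b⟩ h ⟨a', b'⟩ h' hab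
      rw [mem_coe, mem_product, mem_ssubsets, mem_ssubsets] at h h'
      dsimp only at h h' hab
      have e1 : ∀ a b : Finset (Fin (2 * d + 1)), a ⊂ X → b ⊂ Xᶜ → (a ∪ b) ∩ X = a := by
        intro a b ha hb
        ext x
        have h1 : x ∈ a → x ∈ X := fun h => ha.1 h
        have h2 : x ∈ b → x ∉ X := fun h => mem_compl.mp (hb.1 h)
        simp only [mem_inter, mem_union]
        tauto
      have e2 : ∀ a b : Finset (Fin (2 * d + 1)), a ⊂ X → b ⊂ Xᶜ → (a ∪ b) \ X = b := by
        intro a b ha hb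
        ext x
        have h1 : x ∈ a → x ∈ X := fun h => ha.1 h
        have h2 : x ∈ b → x ∉ X := fun h => mem_compl.mp (hb.1 h)
        simp only [mem_sdiff, mem_union]
        tauto
      rw [Prod.mk.injEq]
      exact ⟨by rw [← e1 a b h.1 h.2, ← e1 a' b' h'.1 h'.2, hab],
        by rw [← e2 a b h.1 h.2, ← e2 a' b' h'.1 h'.2, hab]⟩

theorem result : ∀ d : ℕ, ∃ m : ℕ, IsMaxIntersections (2 * d + 1) m ∧
    (m : ℤ) = 2 ^ (2 * d + 1) - 2 ^ (d + 1) - 2 ^ d + 1 := by
  intro d
  obtain ⟨A, B, hAB, hcard⟩ := lower d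
  refine ⟨#(intersections A B), ⟨⟨A, B, hAB, rfl⟩, ?_⟩, ?_⟩
  · rintro k ⟨A', B', hAB', rfl⟩
    have := upper d A' B' hAB'
    omega
  · have : ((#(intersections A B) + 2 ^ (d + 1) + 2 ^ d : ℕ) : ℤ) = ((2 ^ (2 * d + 1) + 1 : ℕ) : ℤ) := by
      exact_mod_cast hcard
    push_cast at this
    linarith

end Pool.Agent.Results.MP_841146_co.CrossSpernerOdd
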